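import Pool.Agent.LE.StmtsI
import Pool.Agent.Helper48_Loc.Diag

/-!
# CVB: the bound of Carne and Varopoulos
-/

set_option autoImplicit false
set_option linter.unusedSectionVars false

open scoped BigOperators

noncomputable section

namespace Pool.Agent.LE.IR.H95

open Pool.Agent.Anderson hiding box mem_box card_box
open Pool.Agent.Loc Pool.Agent.Mob Pool.Agent.Helper54.Bal
  Pool.Agent.Helper96.EXP Pool.Agent.BED
open Pool.Agent.LE.MN Pool.Agent.LE.CL

variable {d M : ℕ} [NeZero M]

theorem tds_tri (x y z : Tor d M) : tds x y ≤ tds x z + tds z y := by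
  unfold tds
  refine Finset.sup_le fun i _ => ?_
  have h1 : y i - x i = (z i - x i) + (y i - z i) := by ring
  rw [h1]
  refine (ZMod.natAbs_valMinAbs_add_le _ _).trans ((Int.natAbs_add_le _ _).trans
    (add_le_add ?_ ?_))
  · exact Finset.le_sup (f := fun i => (z i - x i).valMinAbs.natAbs) (Finset.mem_univ i)
  · exact Finset.le_sup (f := fun i => (y i - z i).valMinAbs.natAbs) (Finset.mem_univ i)

theorem tds_self (x : Tor d M) : tds x x = 0 := by
  unfold tds
  rw [← Nat.le_zero]
  refine Finset.sup_le fun i _ => ?_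
  rw [sub_self]
  simp

theorem pow_zero_of_lt {T : Matrix (Tor d M) (Tor d M) ℝ} (hT : ∀ x y, T x y ≠ 0 → tds x y ≤ 1)
    (k : ℕ) : ∀ x y, (T ^ k) x y ≠ 0 → tds x y ≤ k := by
  induction k with
  | zero =>
    intro x y h
    rw [pow_zero, Matrix.one_apply] at h
    by_cases hxy : x = y
    · rw [hxy, tds_self]
    · rw [if_neg hxy] at h
      exact absurd rfl h
  | succ k ih =>
    intro x y h
    rw [pow_succ, Matrix.mul_apply] at h
    obtain ⟨z, -, hz⟩ := Finset.exists_ne_zero_of_sum_ne_zero h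
    have h1 := ih x z (left_ne_zero_of_mul hz)
    have h2 := hT z y (right_ne_zero_of_mul hz)
    exact (tds_tri x y z).trans (add_le_add h1 h2)

/-- the expansion of a power in Chebyshev polynomials -/
theorem pow_cheb (n : ℕ) {t : ℝ} (h1 : -1 ≤ t) (h2 : t ≤ 1) :
    t ^ n = (1 / 2) ^ n * ∑ j ∈ Finset.range (n + 1), (n.choose j : ℝ) *
      (Polynomial.Chebyshev.T ℝ (2 * j - n)).eval t := by
  obtain ⟨a, rfl⟩ : ∃ a, t = Real.cos a := ⟨Real.arccos t, (Real.cos_arccos h1 h2).symm⟩
  have h3 : ∀ j ∈ Finset.range (n + 1), (n.choose j : ℝ) *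
      (Polynomial.Chebyshev.T ℝ (2 * j - n)).eval (Real.cos a) =
      (Complex.exp (a * Complex.I) ^ j * Complex.exp (-(a * Complex.I)) ^ (n - j) *
        (n.choose j : ℂ)).re := by
    intro j hj
    have hjn : j ≤ n := by
      have := Finset.mem_range.1 hj
      omega
    rw [Polynomial.Chebyshev.T_real_cos, ← Complex.exp_nat_mul, ← Complex.exp_nat_mul,
      ← Complex.exp_add]
    have h4 : (j : ℂ) * (a * Complex.I) + ((n - j : ℕ) : ℂ) * (-(a * Complex.I)) =
        (((((2 * j - n : ℤ) : ℤ) : ℝ) * a : ℝ) : ℂ) * Complex.I := by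
      rw [Nat.cast_sub hjn]
      push_cast
      ring
    rw [h4, ← Complex.ofReal_natCast, Complex.re_mul_ofReal, Complex.exp_ofReal_mul_I_re, mul_comm]
  rw [Finset.sum_congr rfl h3, ← Complex.re_sum, ← add_pow]
  have h5 : Complex.exp (a * Complex.I) + Complex.exp (-(a * Complex.I)) =
      ((2 * Real.cos a : ℝ) : ℂ) := by
    rw [← neg_mul]
    push_cast
    rw [Complex.two_cos]
  rw [h5, ← Complex.ofReal_pow, Complex.ofReal_re, mul_pow, ← mul_assoc, ← mul_pow]
  norm_num

/-- Hoeffding's bound -/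
theorem hoeff (n D : ℕ) : (1 / 2 : ℝ) ^ n * ∑ j ∈ Finset.range (n + 1),
    (if (D : ℤ) ≤ |2 * (j : ℤ) - n| then (n.choose j : ℝ) else 0) ≤
      2 * Real.exp (-((D : ℝ) ^ 2 / (2 * n))) := by
  set s : ℝ := (D : ℝ) / n with hs
  have hs0 : 0 ≤ s := by positivity
  have h1 : ∀ j ∈ Finset.range (n + 1),
      (if (D : ℤ) ≤ |2 * (j : ℤ) - n| then (n.choose j : ℝ) else 0) ≤
      Real.exp (-(s * D)) * (Real.exp s ^ j * Real.exp (-s) ^ (n - j) * (n.choose j : ℝ) +
        Real.exp (-s) ^ j * Real.exp s ^ (n - j) * (n.choose j : ℝ)) := by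
    intro j hj
    have hjn : j ≤ n := by
      have := Finset.mem_range.1 hj
      omega
    have hR : Real.exp (-(s * D)) * (Real.exp s ^ j * Real.exp (-s) ^ (n - j) * (n.choose j : ℝ) +
        Real.exp (-s) ^ j * Real.exp s ^ (n - j) * (n.choose j : ℝ)) =
        (Real.exp (s * ((2 * j - n : ℝ) - D)) + Real.exp (s * (-(2 * j - n : ℝ) - D))) *
          (n.choose j : ℝ) := by
      rw [← Real.exp_nat_mul, ← Real.exp_nat_mul, ← Real.exp_nat_mul, ← Real.exp_nat_mul,
        ← Real.exp_add, ← Real.exp_add, ← add_mul, ← mul_assoc, mul_add, ← Real.exp_add,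
        ← Real.exp_add, Nat.cast_sub hjn]
      congr 3
      · ring
      · ring
    rw [hR]
    split_ifs with h
    · have hc : (0 : ℝ) ≤ n.choose j := Nat.cast_nonneg _
      have h2 : (D : ℝ) ≤ |2 * (j : ℝ) - n| := by
        have : ((D : ℤ) : ℝ) ≤ ((|2 * (j : ℤ) - n| : ℤ) : ℝ) := by exact_mod_cast h
        push_cast at this
        exact this
      have h3 : 1 ≤ Real.exp (s * ((2 * j - n : ℝ) - D)) + Real.exp (s * (-(2 * j - n : ℝ) - D)) := by
        rcases le_abs.1 h2 with h4 | h4
        · have h5 : 1 ≤ Real.exp (s * ((2 * j - n : ℝ) - D)) :=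
            Real.one_le_exp (mul_nonneg hs0 (by linarith))
          have h6 := Real.exp_pos (s * (-(2 * j - n : ℝ) - D))
          linarith
        · have h5 : 1 ≤ Real.exp (s * (-(2 * j - n : ℝ) - D)) :=
            Real.one_le_exp (mul_nonneg hs0 (by linarith))
          have h6 := Real.exp_pos (s * ((2 * j - n : ℝ) - D))
          linarith
      nlinarith
    · positivity
  have h2 := Finset.sum_le_sum h1
  rw [← Finset.mul_sum, Finset.sum_add_distrib, ← add_pow, ← add_pow] at h2
  have h3 : Real.exp s + Real.exp (-s) = 2 * Real.cosh s := by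
    rw [Real.cosh_eq]
    ring
  rw [add_comm (Real.exp (-s)), h3] at h2
  have h4 : (1 / 2 : ℝ) ^ n * (Real.exp (-(s * D)) * ((2 * Real.cosh s) ^ n + (2 * Real.cosh s) ^ n)) =
      2 * (Real.exp (-(s * D)) * Real.cosh s ^ n) := by
    rw [mul_pow]
    have : (1 / 2 : ℝ) ^ n * 2 ^ n = 1 := by
      rw [← mul_pow]
      norm_num
    linear_combination (2 * Real.exp (-(s * D)) * Real.cosh s ^ n) * this
  refine (mul_le_mul_of_nonneg_left h2 (by positivity)).trans ?_
  rw [h4]
  refine mul_le_mul_of_nonneg_left ?_ (by norm_num)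
  have h5 : Real.cosh s ^ n ≤ Real.exp (s ^ 2 / 2) ^ n :=
    pow_le_pow_left₀ (Real.cosh_pos s).le (Real.cosh_le_exp_half_sq s) n
  refine (mul_le_mul_of_nonneg_left h5 (Real.exp_pos _).le).trans ?_
  rw [← Real.exp_nat_mul, ← Real.exp_add]
  refine Real.exp_le_exp.2 (le_of_eq ?_)
  rcases Nat.eq_zero_or_pos n with h | h
  · subst h
    simp [hs]
  · have hn : (n : ℝ) ≠ 0 := by positivity
    rw [hs]
    field_simp
    ring

theorem cvb : CvbStmt := by
  intro d M _ T hsym hcon hT n x y
  obtain ⟨U, lam, hU1, hU2, hpow⟩ := exists_diag_real (A := T) (by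
    ext a b
    exact hsym b a)
  have hent : ∀ (k : ℕ) (a b : Tor d M), (T ^ k) a b = ∑ l, U a l * U b l * lam l ^ k := by
    intro k a b
    rw [hpow k, Matrix.mul_apply]
    refine Finset.sum_congr rfl fun l _ => ?_
    rw [Matrix.mul_diagonal, Matrix.transpose_apply]
    ring
  have hlam : ∀ l, |lam l| ≤ 1 := by
    intro l
    have h1 := hcon (fun a => U a l)
    have h2 : ∑ a, U a l ^ 2 = 1 := by
      have h3 := congrFun (congrFun hU1 l) l
      rw [Matrix.mul_apply, Matrix.one_apply_eq] at h3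
      rw [← h3]
      refine Finset.sum_congr rfl fun a _ => ?_
      rw [Matrix.transpose_apply, sq]
    have h4 : ∀ a, Matrix.mulVec T (fun a => U a l) a = U a l * lam l := by
      intro a
      have h5 : (T * U) a l = Matrix.mulVec T (fun a => U a l) a := by
        rw [Matrix.mul_apply]
        rfl
      rw [← h5]
      have h6 := hpow 1
      rw [pow_one] at h6
      rw [h6, mul_assoc, hU1, mul_one, Matrix.mul_diagonal, pow_one]
    have h7 : ∑ a, (Matrix.mulVec T (fun a => U a l) a) ^ 2 = lam l ^ 2 := by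
      rw [Finset.sum_congr rfl fun a _ => by rw [h4 a, mul_pow], ← Finset.sum_mul, h2, one_mul]
    rw [h7, h2] at h1
    exact (sq_le_one_iff_abs_le_one _).1 h1
  have hrow : ∀ a, ∑ l, U a l ^ 2 = 1 := by
    intro a
    have h3 := congrFun (congrFun hU2 a) a
    rw [Matrix.mul_apply, Matrix.one_apply_eq] at h3
    rw [← h3]
    refine Finset.sum_congr rfl fun l _ => ?_
    rw [Matrix.transpose_apply, sq]
  -- the polynomials of `T`
  set R : ℤ → ℝ := fun m => ∑ l, U x l * U y l * (Polynomial.Chebyshev.T ℝ m).eval (lam l) with hR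
  have hR1 : ∀ m, |R m| ≤ 1 := by
    intro m
    have h1 : |R m| ≤ ∑ l, (U x l ^ 2 + U y l ^ 2) / 2 := by
      refine (Finset.abs_sum_le_sum_abs _ _).trans (Finset.sum_le_sum fun l _ => ?_)
      have h2 : |(Polynomial.Chebyshev.T ℝ m).eval (lam l)| ≤ 1 := by
        have h3 := abs_le.1 (hlam l)
        rw [← Real.cos_arccos h3.1 h3.2, Polynomial.Chebyshev.T_real_cos]
        exact Real.abs_cos_le_one _
      rw [abs_mul, abs_mul]
      have h4 : |U x l| * |U y l| * |(Polynomial.Chebyshev.T ℝ m).eval (lam l)| ≤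
          |U x l| * |U y l| * 1 := mul_le_mul_of_nonneg_left h2 (by positivity)
      have h5 := sq_nonneg (|U x l| - |U y l|)
      have h6 := sq_abs (U x l)
      have h7 := sq_abs (U y l)
      nlinarith
    have h2 : ∑ l, (U x l ^ 2 + U y l ^ 2) / 2 = 1 := by
      rw [← Finset.sum_div, Finset.sum_add_distrib, hrow, hrow]
      norm_num
    linarith
  have hR0 : ∀ m : ℤ, |m| < (tds x y : ℤ) → R m = 0 := by
    intro m hm
    have h1 : R m = ∑ k ∈ Finset.range ((Polynomial.Chebyshev.T ℝ m).natDegree + 1),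
        (Polynomial.Chebyshev.T ℝ m).coeff k * (T ^ k) x y := by
      rw [hR]
      simp only
      simp_rw [Polynomial.eval_eq_sum_range, hent, Finset.mul_sum]
      rw [Finset.sum_comm]
      refine Finset.sum_congr rfl fun k _ => Finset.sum_congr rfl fun l _ => ?_
      ring
    rw [h1]
    refine Finset.sum_eq_zero fun k hk => ?_
    rw [Polynomial.Chebyshev.natDegree_T] at hk
    have hk' := Finset.mem_range.1 hk
    by_cases h : (T ^ k) x y = 0
    · rw [h, mul_zero]
    · exfalso
      have h2 := pow_zero_of_lt hT k x y h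
      have h3 : (m.natAbs : ℤ) = |m| := Int.natCast_natAbs m
      omega
  have hmain : (T ^ n) x y = (1 / 2) ^ n * ∑ j ∈ Finset.range (n + 1), (n.choose j : ℝ) *
      R (2 * j - n) := by
    rw [hent]
    have h1 : ∀ l, U x l * U y l * lam l ^ n = (1 / 2) ^ n * ∑ j ∈ Finset.range (n + 1),
        (n.choose j : ℝ) * (U x l * U y l * (Polynomial.Chebyshev.T ℝ (2 * j - n)).eval (lam l)) := by
      intro l
      have h3 := abs_le.1 (hlam l)
      rw [pow_cheb n h3.1 h3.2, ← mul_assoc, mul_comm (U x l * U y l), mul_assoc, Finset.mul_sum]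
      congr 1
      refine Finset.sum_congr rfl fun j _ => ?_
      ring
    rw [Finset.sum_congr rfl fun l _ => h1 l, ← Finset.mul_sum, Finset.sum_comm]
    congr 1
    refine Finset.sum_congr rfl fun j _ => ?_
    rw [← Finset.mul_sum]
  rw [hmain, abs_mul, abs_of_nonneg (show (0 : ℝ) ≤ (1 / 2) ^ n by positivity)]
  refine le_trans ?_ (hoeff n (tds x y))
  refine mul_le_mul_of_nonneg_left ?_ (by positivity)
  refine (Finset.abs_sum_le_sum_abs _ _).trans (Finset.sum_le_sum fun j _ => ?_)
  rw [abs_mul, abs_of_nonneg (show (0 : ℝ) ≤ n.choose j from Nat.cast_nonneg _)]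
  split_ifs with h
  · have := mul_le_mul_of_nonneg_left (hR1 (2 * j - n)) (show (0 : ℝ) ≤ n.choose j from
      Nat.cast_nonneg _)
    linarith
  · rw [hR0 _ (not_le.1 h), abs_zero, mul_zero]

end Pool.Agent.LE.IR.H95
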