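import Pool.Agent.LE.StmtsI

/-!
# SMS: sums over the low momenta
-/

set_option autoImplicit false
set_option linter.unusedSectionVars false

open scoped BigOperators

noncomputable section

namespace Pool.Agent.LE.IR.H95

open Pool.Agent.Anderson hiding box mem_box card_box
open Pool.Agent.Loc Pool.Agent.Mob Pool.Agent.Helper54.Bal
  Pool.Agent.Helper96.EXP Pool.Agent.BED
open Pool.Agent.LE.MN Pool.Agent.LE.CL

variable {d M : ℕ} [NeZero M]

theorem pm_mono {F G : Tor d M → ℝ} (h : ∀ p, F p ≤ G p) : pm F ≤ pm G := by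
  unfold pm
  exact div_le_div_of_nonneg_right (Finset.sum_le_sum fun p _ => h p) (by positivity)

theorem pm_lin (F G : Tor d M → ℝ) (a b : ℝ) :
    pm (fun p => a * F p + b * G p) = a * pm F + b * pm G := by
  unfold pm
  rw [Finset.sum_add_distrib, ← Finset.mul_sum, ← Finset.mul_sum]
  ring

theorem pm_sum {ι : Type} (s : Finset ι) (F : ι → Tor d M → ℝ) (a : ℝ) :
    pm (fun p => a * ∑ j ∈ s, F j p) = a * ∑ j ∈ s, pm (F j) := by
  unfold pm
  rw [← Finset.mul_sum, Finset.sum_comm, ← Finset.sum_div]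
  ring

theorem mt_sq (l η : ℝ) (p : Tor d M) : mt l η p ^ 2 = (ds p - l) ^ 2 + η ^ 2 := by
  unfold mt
  rw [Real.sq_sqrt (by positivity)]

/-- `1 / m` is bounded by one of the kernels -/
theorem kern {η κ u : ℝ} {N : ℕ} (hη : 0 < η) (hu0 : 0 ≤ u) (huκ : u ≤ κ)
    (hN2' : κ < 2 ^ (N + 1) * η) : ∃ j ∈ Finset.range (N + 1), (Real.sqrt (u ^ 2 + η ^ 2))⁻¹ ≤
            5 * ((2 ^ j * η) / (u ^ 2 + (2 ^ j * η) ^ 2)) := by
  by_cases hcase : u ≤ η
  · refine ⟨0, Finset.mem_range.2 (by omega), ?_⟩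
    have h2 : (Real.sqrt (u ^ 2 + η ^ 2))⁻¹ ≤ η⁻¹ := by
      apply inv_anti₀ hη
      exact Real.le_sqrt_of_sq_le (by nlinarith)
    refine h2.trans ?_
    rw [pow_zero, one_mul, inv_eq_one_div, ← mul_div_assoc,
      div_le_div_iff₀ hη (by positivity)]
    nlinarith
  · have hcase' := not_le.1 hcase
    obtain ⟨j, hj1, hj2⟩ := exists_nat_pow_near (x := u / η) (y := (2 : ℝ)) (by
      rw [le_div_iff₀ hη]
      linarith) (by norm_num)
    have hj1' : 2 ^ j * η ≤ u := by
      rwa [le_div_iff₀ hη] at hj1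
    have hj2' : u < 2 ^ (j + 1) * η := by
      rwa [div_lt_iff₀ hη] at hj2
    have hjN : j < N + 1 := by
      have h2 : (2 : ℝ) ^ j * η < 2 ^ (N + 1) * η := by linarith
      have h3 := lt_of_mul_lt_mul_right h2 hη.le
      exact (pow_lt_pow_iff_right₀ (by norm_num)).1 h3
    refine ⟨j, Finset.mem_range.2 hjN, ?_⟩
    have hu1 : 0 < u := by linarith
    have h2 : (Real.sqrt (u ^ 2 + η ^ 2))⁻¹ ≤ u⁻¹ := by
      apply inv_anti₀ hu1
      exact Real.le_sqrt_of_sq_le (by nlinarith)
    refine h2.trans ?_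
    set t : ℝ := 2 ^ j * η with ht
    have ht0 : 0 < t := by positivity
    have hj3 : u < 2 * t := by
      rw [pow_succ] at hj2'
      rw [ht]
      linarith
    rw [inv_eq_one_div, ← mul_div_assoc, div_le_div_iff₀ hu1 (by positivity)]
    nlinarith

theorem sms (hDST : DstStmt) : SmsStmt := by
  intro d hd
  obtain ⟨C, hC1, hC⟩ := hDST d hd
  set s : ℝ := ((d : ℝ) - 2) / 2 with hs
  have hd3 : (3 : ℝ) ≤ d := by exact_mod_cast hd
  have hs0 : 0 < s := by
    rw [hs]
    linarith
  have h4s : (0 : ℝ) < 4 ^ s := Real.rpow_pos_of_pos (by norm_num) _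
  refine ⟨C * 4 ^ s + 11 * C, ?_, ?_⟩
  · have : 0 ≤ C * 4 ^ s := by positivity
    linarith
  intro M _ l η κ hη hηl hlκ hκ1 hM
  have hl : 0 < l := lt_of_lt_of_le hη hηl
  have hκ : 0 < κ := by linarith
  have hη1 : η ≤ 1 := by linarith
  have hCη : C / η ≤ M := by
    refine le_trans ?_ hM
    refine div_le_div_of_nonneg_right ?_ hη.le
    have : 0 ≤ C * 4 ^ s := by positivity
    linarith
  have hge : ∀ t, η ≤ t → C / t ≤ M := by
    intro t ht
    refine le_trans ?_ hCη
    exact div_le_div_of_nonneg_left (by linarith) hη ht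
  have hls : 0 < l ^ s := Real.rpow_pos_of_pos hl _
  have hκs : 0 < κ ^ s := Real.rpow_pos_of_pos hκ _
  constructor
  · intro hyp
    have hA := hC M (4 * l) l η hη (by linarith) (by linarith) hCη
    have hB := hC M κ 0 κ hκ le_rfl hκ1 (hge κ (by linarith))
    have h1 : pm (fun p : Tor d M => if ds p ≤ κ then (mt l η p ^ 2)⁻¹ else 0) ≤
        (1 / η) * pm (fun p : Tor d M => if ds p ≤ 4 * l then η / ((ds p - l) ^ 2 + η ^ 2) else 0) +
        (2 * κ / (9 * l ^ 2)) *
          pm (fun p : Tor d M => if ds p ≤ κ then κ / ((ds p - 0) ^ 2 + κ ^ 2) else 0) := by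
      rw [← pm_lin]
      refine pm_mono fun p => ?_
      rw [mt_sq]
      have hpos : 0 < (ds p - l) ^ 2 + η ^ 2 := by positivity
      have hpos2 : 0 < (ds p - 0) ^ 2 + κ ^ 2 := by positivity
      by_cases hp : ds p ≤ κ
      · rw [if_pos hp, if_pos hp]
        have hn2 : 0 ≤ 2 * κ / (9 * l ^ 2) * (κ / ((ds p - 0) ^ 2 + κ ^ 2)) := by positivity
        by_cases hp4 : ds p ≤ 4 * l
        · rw [if_pos hp4]
          have h2 : 1 / η * (η / ((ds p - l) ^ 2 + η ^ 2)) = ((ds p - l) ^ 2 + η ^ 2)⁻¹ := by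
            field_simp
          rw [h2]
          linarith
        · rw [if_neg hp4, mul_zero, zero_add]
          have hp4' := not_le.1 hp4
          have h2 : ((ds p - l) ^ 2 + η ^ 2)⁻¹ ≤ (9 * l ^ 2)⁻¹ := by
            apply inv_anti₀ (by positivity)
            nlinarith
          refine h2.trans ?_
          have h3 : 1 / 2 ≤ κ * (κ / ((ds p - 0) ^ 2 + κ ^ 2)) := by
            rw [← mul_div_assoc, div_le_div_iff₀ (by norm_num) hpos2]
            have : (ds p) ^ 2 ≤ κ ^ 2 := pow_le_pow_left₀ (by linarith) hp 2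
            nlinarith
          have h4 : 2 * κ / (9 * l ^ 2) * (κ / ((ds p - 0) ^ 2 + κ ^ 2)) =
              (9 * l ^ 2)⁻¹ * (2 * (κ * (κ / ((ds p - 0) ^ 2 + κ ^ 2)))) := by
            field_simp
          rw [h4]
          have h5 : (9 * l ^ 2)⁻¹ * 1 ≤
              (9 * l ^ 2)⁻¹ * (2 * (κ * (κ / ((ds p - 0) ^ 2 + κ ^ 2)))) :=
            mul_le_mul_of_nonneg_left (by linarith) (by positivity)
          linarith
      · rw [if_neg hp, if_neg hp, mul_zero, add_zero]
        split_ifs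
        · positivity
        · simp
    refine h1.trans ?_
    have h2 : (1 / η) * pm (fun p : Tor d M => if ds p ≤ 4 * l then η / ((ds p - l) ^ 2 + η ^ 2)
        else 0) ≤ (1 / η) * (C * (4 * l) ^ s) := mul_le_mul_of_nonneg_left hA (by positivity)
    have h3 : (2 * κ / (9 * l ^ 2)) *
          pm (fun p : Tor d M => if ds p ≤ κ then κ / ((ds p - 0) ^ 2 + κ ^ 2) else 0) ≤
          (2 * κ / (9 * l ^ 2)) * (C * κ ^ s) := mul_le_mul_of_nonneg_left hB (by positivity)
    have h4 : (1 / η) * (C * (4 * l) ^ s) = C * 4 ^ s * l ^ s / η := by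
      rw [Real.mul_rpow (by norm_num) hl.le]
      ring
    -- `κ^{1+s} η ≤ l^{s+2}`
    have hx : 1 ≤ κ / l := by
      rw [le_div_iff₀ hl]
      linarith
    have h5 : (κ / l) ^ (s + 1) ≤ (κ / l) ^ d := by
      rw [← Real.rpow_natCast]
      refine Real.rpow_le_rpow_of_exponent_le hx ?_
      rw [hs]
      linarith
    have h6 : η * (κ / l) ^ (s + 1) ≤ l := (mul_le_mul_of_nonneg_left h5 hη.le).trans hyp
    have h7 : (κ / l) ^ (s + 1) = κ ^ s * κ / (l ^ s * l) := by
      rw [Real.div_rpow hκ.le hl.le, Real.rpow_add_one hκ.ne', Real.rpow_add_one hl.ne']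
    rw [h7] at h6
    have h8 : κ ^ s * κ / l ^ 2 ≤ l ^ s / η := by
      rw [div_le_div_iff₀ (by positivity) hη]
      have h9 : η * (κ ^ s * κ / (l ^ s * l)) * (l ^ s * l) ≤ l * (l ^ s * l) :=
        mul_le_mul_of_nonneg_right h6 (by positivity)
      have h10 : η * (κ ^ s * κ / (l ^ s * l)) * (l ^ s * l) = κ ^ s * κ * η := by
        field_simp
      rw [h10] at h9
      linarith
    have h11 : (2 * κ / (9 * l ^ 2)) * (C * κ ^ s) = 2 / 9 * C * (κ ^ s * κ / l ^ 2) := by
      field_simp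
    have h12 : 2 / 9 * C * (κ ^ s * κ / l ^ 2) ≤ 2 / 9 * C * (l ^ s / η) :=
      mul_le_mul_of_nonneg_left h8 (by positivity)
    have h13 : (C * 4 ^ s + 11 * C) * l ^ s / η = C * 4 ^ s * l ^ s / η + 11 * C * (l ^ s / η) := by
      ring
    rw [h13]
    have h14 : 2 / 9 * C * (l ^ s / η) ≤ 11 * C * (l ^ s / η) := by
      refine mul_le_mul_of_nonneg_right ?_ (by positivity)
      linarith
    linarith
  · obtain ⟨N, hN1, hN2⟩ := exists_nat_pow_near (x := κ / η) (y := (2 : ℝ)) (by
      rw [le_div_iff₀ hη]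
      linarith) (by norm_num)
    have hN1' : 2 ^ N * η ≤ κ := by
      rwa [le_div_iff₀ hη] at hN1
    have hN2' : κ < 2 ^ (N + 1) * η := by
      rwa [div_lt_iff₀ hη] at hN2
    have hj : ∀ j ∈ Finset.range (N + 1), η ≤ 2 ^ j * η ∧ 2 ^ j * η ≤ κ := by
      intro j hj
      have hj1 : j ≤ N := by
        have := Finset.mem_range.1 hj
        omega
      constructor
      · have : (1 : ℝ) ≤ 2 ^ j := one_le_pow₀ (by norm_num)
        nlinarith
      · refine le_trans ?_ hN1'
        exact mul_le_mul_of_nonneg_right (pow_le_pow_right₀ (by norm_num) hj1) hη.le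
    have h1 : pm (fun p : Tor d M => if ds p ≤ κ then (mt l η p)⁻¹ else 0) ≤
        5 * ∑ j ∈ Finset.range (N + 1), pm (fun p : Tor d M =>
          if ds p ≤ κ then (2 ^ j * η) / ((ds p - l) ^ 2 + (2 ^ j * η) ^ 2) else 0) := by
      rw [← pm_sum]
      refine pm_mono fun p => ?_
      by_cases hp : ds p ≤ κ
      · rw [if_pos hp]
        simp only [if_pos hp]
        have hds : 0 ≤ ds p := by
          unfold ds
          refine Finset.sum_nonneg fun i _ => ?_
          have := Real.cos_le_one (2 * Real.pi * ((p i).valMinAbs : ℝ) / M)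
          linarith
        set u : ℝ := |ds p - l| with hu
        have hu0 : 0 ≤ u := abs_nonneg _
        have hu2 : (ds p - l) ^ 2 = u ^ 2 := (sq_abs _).symm
        have huκ : u ≤ κ := by
          rw [hu, abs_le]
          constructor
          · linarith
          · linarith
        rw [hu2]
        have hmt : mt l η p = Real.sqrt (u ^ 2 + η ^ 2) := by
          unfold mt
          rw [hu2]
        rw [hmt]
        have key := kern hη hu0 huκ hN2'
        obtain ⟨j, hj1, hj2⟩ := key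
        refine hj2.trans (mul_le_mul_of_nonneg_left ?_ (by norm_num))
        refine Finset.single_le_sum (f := fun j : ℕ => (2 ^ j * η) / (u ^ 2 + (2 ^ j * η) ^ 2))
          (fun i _ => ?_) hj1
        positivity
      · rw [if_neg hp]
        simp only [if_neg hp]
        simp
    refine h1.trans ?_
    have h2 : ∑ j ∈ Finset.range (N + 1), pm (fun p : Tor d M =>
          if ds p ≤ κ then (2 ^ j * η) / ((ds p - l) ^ 2 + (2 ^ j * η) ^ 2) else 0) ≤
        ∑ j ∈ Finset.range (N + 1), C * κ ^ s := by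
      refine Finset.sum_le_sum fun j hj' => ?_
      obtain ⟨h3, h4⟩ := hj j hj'
      exact hC M κ l (2 ^ j * η) (by linarith) h4 hκ1 (hge _ h3)
    rw [Finset.sum_const, Finset.card_range, nsmul_eq_mul] at h2
    have hlog : (N : ℝ) + 1 ≤ 2 * (1 + Real.log (1 / η)) := by
      have h3 : (N : ℝ) * Real.log 2 ≤ Real.log (1 / η) := by
        rw [← Real.log_pow]
        refine Real.log_le_log (by positivity) (hN1.trans ?_)
        exact div_le_div_of_nonneg_right hκ1 hη.le
      have h4 : 0 ≤ Real.log (1 / η) := Real.log_nonneg (by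
        rw [le_div_iff₀ hη]
        linarith)
      have h5 := Real.log_two_gt_d9
      have h6 : (N : ℝ) * (1 / 2) ≤ N * Real.log 2 :=
        mul_le_mul_of_nonneg_left (by linarith) (Nat.cast_nonneg _)
      linarith
    have h7 : ((N + 1 : ℕ) : ℝ) * (C * κ ^ s) ≤ 2 * (1 + Real.log (1 / η)) * (C * κ ^ s) := by
      refine mul_le_mul_of_nonneg_right ?_ (by positivity)
      push_cast
      exact hlog
    have h8 : 0 ≤ Real.log (1 / η) := Real.log_nonneg (by
        rw [le_div_iff₀ hη]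
        linarith)
    have h9 : 0 ≤ κ ^ s * (1 + Real.log (1 / η)) := by positivity
    have h10 : 0 ≤ C * 4 ^ s * (κ ^ s * (1 + Real.log (1 / η))) := by positivity
    have h11 : 0 ≤ C * (κ ^ s * (1 + Real.log (1 / η))) := by positivity
    have h12 : (C * 4 ^ s + 11 * C) * κ ^ s * (1 + Real.log (1 / η)) =
      C * 4 ^ s * (κ ^ s * (1 + Real.log (1 / η))) + 11 * (C * (κ ^ s * (1 + Real.log (1 / η)))) := by
      ring
    rw [h12]
    have h13 : 2 * (1 + Real.log (1 / η)) * (C * κ ^ s) =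
      2 * (C * (κ ^ s * (1 + Real.log (1 / η)))) := by ring
    rw [h13] at h7
    linarith

end Pool.Agent.LE.IR.H95
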